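import Pool.Agent.helper42.GB.SpecR

/-!
# gb:RL. One step of the loop of Roitman's algorithm
-/

open Polynomial Matrix

namespace GB

universe u

section Aux

variable {R : Type u} [CommRing R]

/-- low degree -/
def RL_low (m : ℕ) (r : R[X]) : Prop := ∀ i, m ≤ i → r.coeff i = 0

theorem RL_low_add {m : ℕ} {r s : R[X]} (hr : RL_low m r) (hs : RL_low m s) :
    RL_low m (r + s) := fun i hi => by rw [coeff_add, hr i hi, hs i hi, add_zero]

theorem RL_low_sub {m : ℕ} {r s : R[X]} (hr : RL_low m r) (hs : RL_low m s) :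
    RL_low m (r - s) := fun i hi => by rw [coeff_sub, hr i hi, hs i hi, sub_zero]

theorem RL_low_C_mul {m : ℕ} {r : R[X]} (c : R) (hr : RL_low m r) :
    RL_low m (C c * r) := fun i hi => by rw [coeff_C_mul, hr i hi, mul_zero]

theorem RL_coeff_top {a : R} {g : R[X]} {m k : ℕ} (hg1 : g.natDegree = m)
    (hg2 : g.leadingCoeff = a ^ k) : g.coeff m = a ^ k := by
  rw [← hg2, leadingCoeff, hg1]

theorem RL_coeff_above {g : R[X]} {m : ℕ} (hg1 : g.natDegree = m) {i : ℕ} (hi : m < i) :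
    g.coeff i = 0 := coeff_eq_zero_of_natDegree_lt (by omega)

theorem RL_pdiv {a : R} {g : R[X]} {m k : ℕ} (hg1 : g.natDegree = m)
    (hg2 : g.leadingCoeff = a ^ k) :
    ∀ (n : ℕ) (f : R[X]), RL_low (m + n) f →
      ∃ (K : ℕ) (q r : R[X]), C (a ^ K) * f = q * g + r ∧ RL_low m r := by
  intro n
  induction n with
  | zero => exact fun f hf => ⟨0, 0, f, by simp, hf⟩
  | succ n ih =>
    intro f hf
    obtain ⟨K, q, r, h1, h2⟩ := ih (C (a ^ k) * f - C (f.coeff (m + n)) * (X ^ n * g)) (by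
      intro i hi
      rw [coeff_sub, coeff_C_mul, coeff_C_mul, coeff_X_pow_mul', if_pos (by omega)]
      rcases hi.eq_or_lt with rfl | hi'
      · have e : m + n - n = m := by omega
        rw [e, RL_coeff_top hg1 hg2]
        ring
      · rw [hf i (by omega), RL_coeff_above hg1 (by omega)]
        ring)
    refine ⟨K + k, q + C (a ^ K) * C (f.coeff (m + n)) * X ^ n, r, ?_, h2⟩
    rw [pow_add, C_mul]
    linear_combination h1

theorem RL_pdiv_fam {κ : Type} [Fintype κ] {a : R} {g : R[X]} {m k : ℕ} (hg1 : g.natDegree = m)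
    (hg2 : g.leadingCoeff = a ^ k) (f : κ → R[X]) :
    ∃ K : ℕ, ∀ j, ∃ q r : R[X], C (a ^ K) * f j = q * g + r ∧ RL_low m r := by
  have h : ∀ j, ∃ (K : ℕ) (q r : R[X]), C (a ^ K) * f j = q * g + r ∧ RL_low m r := fun j =>
    RL_pdiv hg1 hg2 ((f j).natDegree + 1) (f j) fun i hi =>
      coeff_eq_zero_of_natDegree_lt (by omega)
  choose K q r h1 h2 using h
  refine ⟨∑ j, K j, fun j => ⟨C (a ^ (∑ j, K j - K j)) * q j, C (a ^ (∑ j, K j - K j)) * r j, ?_,
    RL_low_C_mul _ (h2 j)⟩⟩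
  have hle : K j ≤ ∑ j, K j := Finset.single_le_sum (fun _ _ => Nat.zero_le _) (Finset.mem_univ j)
  have e : a ^ (∑ j, K j) = a ^ (∑ j, K j - K j) * a ^ (K j) := by
    rw [← pow_add]
    congr 1
    omega
  conv_lhs => rw [e, C_mul, mul_assoc, h1 j]
  ring

/-- the common factor over the fraction field of `R / p` -/
theorem RL_key {ι : Type} [Fintype ι] {p : Ideal R} (hp : p.IsPrime) {a : R} (ha : a ∉ p)
    {w : ι → R[X]} {i0 i1 : ι} {m k n K : ℕ} (hdeg : (w i0).natDegree = m)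
    (hlc : (w i0).leadingCoeff = a ^ k) (hn : (w i1).natDegree ≤ n)
    (hres : resultant (w i0) (w i1) m n ∈ p)
    (hdiv : ∀ j, j ≠ i0 → j ≠ i1 → ∃ q r : R[X], C (a ^ K) * w j = q * w i0 + r ∧
      ∀ i, r.coeff i ∈ p) (hw : Um w) : False := by
  classical
  set F := FractionRing (R ⧸ p)
  set φ : R →+* F := (algebraMap (R ⧸ p) F).comp (Ideal.Quotient.mk p) with hφ
  have hker : ∀ x, φ x = 0 ↔ x ∈ p := by
    intro x
    rw [hφ, RingHom.comp_apply, IsFractionRing.to_map_eq_zero_iff, Ideal.Quotient.eq_zero_iff_mem]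
  have hφa : φ a ≠ 0 := fun h => ha ((hker a).1 h)
  set f := (w i0).map φ with hf
  set g := (w i1).map φ with hg
  have hlc' : φ (w i0).leadingCoeff ≠ 0 := by
    rw [hlc, map_pow]
    exact pow_ne_zero _ hφa
  have hfdeg : f.natDegree = m := by
    rw [hf, natDegree_map_of_leadingCoeff_ne_zero φ hlc', hdeg]
  have hfm : f.coeff m ≠ 0 := by
    rw [hf, coeff_map, ← hdeg]
    exact hlc'
  have hgdeg : g.natDegree ≤ n := natDegree_map_le.trans hn
  have h0 : resultant f g m n = 0 := by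
    rw [hf, hg, resultant_map_map, hker]
    exact hres
  obtain ⟨e, he⟩ := Nat.exists_eq_add_of_le hgdeg
  rw [he, resultant_add_right_deg _ _ _ _ _ le_rfl] at h0
  have h1 : resultant f g m g.natDegree = 0 := by
    rcases mul_eq_zero.1 h0 with h | h
    · exact absurd h (pow_ne_zero _ hfm)
    · exact h
  have hcop : ¬ IsCoprime f g := by
    intro hc
    have := resultant_ne_zero f g hc
    rw [hfdeg] at this
    exact this h1
  set d := EuclideanDomain.gcd f g with hd
  have hdu : ¬ IsUnit d := fun h => hcop (EuclideanDomain.gcd_isUnit_iff.1 h)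
  have hdf : d ∣ f := EuclideanDomain.gcd_dvd_left f g
  have hdg : d ∣ g := EuclideanDomain.gcd_dvd_right f g
  have hall : ∀ j, d ∣ (w j).map φ := by
    intro j
    by_cases h0 : j = i0
    · rw [h0]; exact hdf
    by_cases h1 : j = i1
    · rw [h1]; exact hdg
    obtain ⟨q, r, hqr, hr⟩ := hdiv j h0 h1
    have hr0 : r.map φ = 0 := by
      ext i
      rw [coeff_map, coeff_zero, hker]
      exact hr i
    have h3 := congrArg (Polynomial.map φ) hqr
    rw [Polynomial.map_mul, Polynomial.map_add, Polynomial.map_mul, hr0, add_zero,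
      Polynomial.map_C] at h3
    have h4 : d ∣ C (φ (a ^ K)) * (w j).map φ := by
      rw [h3]
      exact hdf.mul_left _
    have hu : IsUnit (C (φ (a ^ K))) := by
      rw [Polynomial.isUnit_C, map_pow]
      exact (Ne.isUnit hφa).pow K
    exact hu.dvd_mul_left.1 h4
  obtain ⟨u, hu⟩ := hw
  apply hdu
  rw [isUnit_iff_dvd_one]
  have h5 := congrArg (Polynomial.map φ) hu
  rw [Polynomial.map_one, dotProduct, Polynomial.map_sum] at h5
  rw [← h5]
  refine Finset.dvd_sum fun j _ => ?_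
  rw [Polynomial.map_mul]
  exact (hall j).mul_right _

/-- the ideal of the top coefficients -/
def RL_top (I : Ideal R[X]) (m : ℕ) : Ideal R where
  carrier := {x | ∃ r ∈ I, RL_low m r ∧ r.coeff (m - 1) = x}
  add_mem' := by
    rintro x y ⟨r, hr, hr', rfl⟩ ⟨s, hs, hs', rfl⟩
    exact ⟨r + s, I.add_mem hr hs, RL_low_add hr' hs', coeff_add _ _ _⟩
  zero_mem' := ⟨0, I.zero_mem, fun _ _ => coeff_zero _, coeff_zero _⟩
  smul_mem' := by
    rintro c x ⟨r, hr, hr', rfl⟩
    exact ⟨C c * r, I.mul_mem_left _ hr, RL_low_C_mul c hr', coeff_C_mul _⟩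

theorem RL_mem_top {I : Ideal R[X]} {m : ℕ} {x : R} :
    x ∈ RL_top I m ↔ ∃ r ∈ I, RL_low m r ∧ r.coeff (m - 1) = x := Iff.rfl

theorem RL_climb {a : R} {g : R[X]} {m k : ℕ} (hm : 1 ≤ m) (hg1 : g.natDegree = m)
    (hg2 : g.leadingCoeff = a ^ k) {I : Ideal R[X]} (hgI : g ∈ I) :
    ∀ t, t ≤ m - 1 → ∀ r ∈ I, RL_low m r → a ^ (k * t) * r.coeff (m - 1 - t) ∈ RL_top I m := by
  intro t
  induction t with
  | zero =>
    intro _ r hr hl
    rw [Nat.mul_zero, pow_zero, one_mul, Nat.sub_zero]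
    exact ⟨r, hr, hl, rfl⟩
  | succ t ih =>
    intro ht r hr hl
    have hgm := RL_coeff_top hg1 hg2
    set s : R[X] := C (a ^ k) * (r * X) - C (r.coeff (m - 1)) * g with hs
    have hsI : s ∈ I :=
      I.sub_mem (I.mul_mem_left _ (I.mul_mem_right _ hr)) (I.mul_mem_left _ hgI)
    have hsl : RL_low m s := by
      intro i hi
      obtain ⟨i', rfl⟩ : ∃ i', i = i' + 1 := ⟨i - 1, by omega⟩
      rw [hs, coeff_sub, coeff_C_mul, coeff_C_mul, coeff_mul_X]
      rcases hi.eq_or_lt with h | h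
      · have e1 : m - 1 = i' := by omega
        rw [e1, ← h, hgm]
        ring
      · rw [hl i' (by omega), RL_coeff_above hg1 (by omega)]
        ring
    have h1 := ih (by omega) s hsI hsl
    obtain ⟨c, hc⟩ : ∃ c, m - 1 - t = c + 1 := ⟨m - 1 - t - 1, by omega⟩
    have hc' : m - 1 - (t + 1) = c := by omega
    rw [hc, hs, coeff_sub, coeff_C_mul, coeff_C_mul, coeff_mul_X] at h1
    rw [hc']
    have h2 : r.coeff (m - 1) ∈ RL_top I m := ⟨r, hr, hl, rfl⟩
    have h3 := (RL_top I m).mul_mem_left (a ^ (k * t) * g.coeff (c + 1)) h2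
    have h4 := (RL_top I m).add_mem h1 h3
    have e : a ^ (k * t) * (a ^ k * r.coeff c - r.coeff (m - 1) * g.coeff (c + 1)) +
        a ^ (k * t) * g.coeff (c + 1) * r.coeff (m - 1) = a ^ (k * (t + 1)) * r.coeff c := by
      rw [Nat.mul_add, Nat.mul_one, pow_add]
      ring
    rwa [e] at h4

/-- the ideal generated by the entries of a row different from the entry `i` -/
def RL_others {A : Type u} [CommRing A] {ι : Type} [Fintype ι] (w : ι → A) (i : ι) :
    Ideal A where
  carrier := {f | ∃ c : ι → A, c i = 0 ∧ w ⬝ᵥ c = f}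
  add_mem' := by
    rintro x y ⟨c, hc, rfl⟩ ⟨c', hc', rfl⟩
    exact ⟨c + c', by simp [hc, hc'], dotProduct_add _ _ _⟩
  zero_mem' := ⟨0, rfl, dotProduct_zero _⟩
  smul_mem' := by
    rintro x y ⟨c, hc, rfl⟩
    exact ⟨x • c, by simp [hc], dotProduct_smul _ _ _⟩

theorem RL_mem_others {A : Type u} [CommRing A] {ι : Type} [Fintype ι] {w : ι → A} {i : ι}
    {f : A} : f ∈ RL_others w i ↔ ∃ c : ι → A, c i = 0 ∧ w ⬝ᵥ c = f := Iff.rfl

theorem RL_entry_mem {A : Type u} [CommRing A] {ι : Type} [Fintype ι] [DecidableEq ι]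
    {w : ι → A} {i j : ι} (h : j ≠ i) : w j ∈ RL_others w i :=
  ⟨Pi.single j 1, Pi.single_eq_of_ne h.symm _, by rw [dotProduct_single, mul_one]⟩

theorem RL_update_dot {A : Type u} [CommRing A] {ι : Type} [Fintype ι] [DecidableEq ι]
    (w c : ι → A) (i : ι) (y : A) (hc : c i = 0) : (Function.update w i y) ⬝ᵥ c = w ⬝ᵥ c := by
  refine Finset.sum_congr rfl fun j _ => ?_
  by_cases hj : j = i
  · subst hj; rw [hc, mul_zero, mul_zero]
  · rw [Function.update_of_ne hj]

theorem RL_O2 (hO2 : O2_stmt.{u}) {ι : Type} [Fintype ι] [DecidableEq ι]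
    (h3 : 3 ≤ Fintype.card ι) {w : ι → R[X]} (hw : Um w) {i1 iD : ι} (h1D : i1 ≠ iD) {a : R}
    (hg : C a ∣ w iD - 1) (N : ℕ) :
    EEq w (Function.update w i1 (C (a ^ (2 * N)) * w i1)) := by
  induction N with
  | zero =>
    have : Function.update w i1 (C (a ^ (2 * 0)) * w i1) = w := by simp
    rw [this]
    exact EEq.refl w
  | succ N ih =>
    refine ih.trans ?_
    obtain ⟨e, he⟩ := hg
    have h := hO2 R[X] ι h3 (Function.update w i1 (C (a ^ (2 * N)) * w i1)) (ih.um hw) i1 iD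
      h1D.symm (C a) (-e) (-1) (by
        rw [Function.update_of_ne h1D.symm]
        linear_combination he)
    rw [Function.update_self, Function.update_idem] at h
    have e2 : C (a ^ (2 * (N + 1))) * w i1 = C a ^ 2 * (C (a ^ (2 * N)) * w i1) := by
      rw [← C_pow, ← mul_assoc, ← C_mul, ← pow_add]
      congr 2
      congr 1
      ring
    rw [e2]
    exact h

theorem RL_height [IsNoetherianRing R] [IsLocalRing R] {D : ℕ} (hdim : ringKrullDim R ≤ D)
    {a : R} (ha : a ∈ IsLocalRing.maximalIdeal R) {p : Ideal R} (hp : p.IsPrime) (hap : a ∉ p) :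
    p.height < (D : ℕ∞) := by
  have h1 : p < IsLocalRing.maximalIdeal R := by
    refine lt_of_le_of_ne (IsLocalRing.le_maximalIdeal hp.ne_top) ?_
    rintro rfl
    exact hap ha
  have h2 := Ideal.height_strict_mono_of_isPrime_of_isPrime h1
  refine h2.trans_le ?_
  have h3 : ((IsLocalRing.maximalIdeal R).height : WithBot ℕ∞) ≤ ((D : ℕ∞) : WithBot ℕ∞) := by
    rw [IsLocalRing.maximalIdeal_height_eq_ringKrullDim]
    exact hdim
  exact WithBot.coe_le_coe.1 h3

/-- the polynomials `H j` -/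
noncomputable def RL_H {m : ℕ} (h : Fin m → R) : R[X] := ∑ i : Fin m, C (h i) * X ^ (i : ℕ)

theorem RL_H_coeff {m : ℕ} (h : Fin m → R) (i : Fin m) : (RL_H h).coeff i = h i := by
  rw [RL_H, finset_sum_coeff, Finset.sum_eq_single i]
  · simp
  · intro j _ hj
    rw [coeff_C_mul, coeff_X_pow, if_neg, mul_zero]
    intro h
    exact hj (Fin.ext h.symm)
  · intro h
    exact absurd (Finset.mem_univ _) h

theorem RL_H_low {m : ℕ} (h : Fin m → R) : RL_low m (RL_H h) := by
  intro i hi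
  rw [RL_H, finset_sum_coeff]
  refine Finset.sum_eq_zero fun j _ => ?_
  rw [coeff_C_mul, coeff_X_pow, if_neg, mul_zero]
  have := j.2
  omega

theorem RL_card {ι : Type} [Fintype ι] [DecidableEq ι] {D : ℕ} (hcard : Fintype.card ι = D + 1)
    {i0 i1 : ι} (h01 : i0 ≠ i1) : Fintype.card {j : ι // j ≠ i0 ∧ j ≠ i1} = D - 1 := by
  rw [Fintype.card_subtype]
  have : (Finset.univ.filter fun j : ι => j ≠ i0 ∧ j ≠ i1) = ({i0, i1} : Finset ι)ᶜ := by
    ext j
    simp
  rw [this, Finset.card_compl, Finset.card_pair h01, hcard]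
  omega

end Aux

theorem RL (hGP : GP_stmt.{u}) (hO2 : O2_stmt.{u}) : RL_stmt.{u} := by
  classical
  intro R _ _ _ D hD hdim a ha hnil ι _ _ hcard v hv i0 i1 iD h01 h0D h1D m hm hst
  obtain ⟨hdeg, ⟨k, hlc⟩, hguard⟩ := hst
  -- the resultant
  obtain ⟨P', P, -, -, hres⟩ := exists_mul_add_mul_eq_C_resultant (m := m)
    (n := (v i1).natDegree) (v i0) (v i1) hdeg.le le_rfl (Or.inl (by omega))
  set δ : R := resultant (v i0) (v i1) m (v i1).natDegree with hδ
  -- pseudo-division
  obtain ⟨K, hK⟩ := RL_pdiv_fam hdeg hlc v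
  choose q r hqr hr using hK
  -- general position
  obtain ⟨h, hh⟩ := hGP R ({j : ι // j ≠ i0 ∧ j ≠ i1} × Fin m) (fun z => (r z.1).coeff z.2)
    (a ^ (K + 1) * δ)
  set H : ι → R[X] := fun j => if hj : j ≠ i0 ∧ j ≠ i1 then RL_H fun i => h (⟨j, hj⟩, i) else 0
    with hHdef
  have hH0 : H i0 = 0 := by rw [hHdef]; exact dif_neg (by simp)
  have hH1 : H i1 = 0 := by rw [hHdef]; exact dif_neg (by simp)
  have hHlow : ∀ j, RL_low m (H j) := by
    intro j
    by_cases hj : j ≠ i0 ∧ j ≠ i1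
    · have : H j = RL_H fun i => h (⟨j, hj⟩, i) := dif_pos hj
      rw [this]
      exact RL_H_low _
    · have : H j = 0 := dif_neg hj
      rw [this]
      exact fun _ _ => coeff_zero _
  set c : ι → R[X] := fun j => C a * H j * P with hc
  have hc1 : c i1 = 0 := by simp only [hc, hH1, mul_zero, zero_mul]
  set w : ι → R[X] := v + v i1 • c with hw
  have hwj : ∀ j, w j = v j + v i1 * (C a * H j * P) := fun j => rfl
  have hvw : EEq v w := EEq_add_others i1 v c hc1
  have hwUm : Um w := hvw.um hv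
  have hw0 : w i0 = v i0 := by rw [hwj, hH0]; ring
  have hw1 : w i1 = v i1 := by rw [hwj, hH1]; ring
  set r' : ι → R[X] := fun j => r j + C (a ^ (K + 1) * δ) * H j with hr'
  have hr'low : ∀ j, RL_low m (r' j) := fun j => RL_low_add (hr j) (RL_low_C_mul _ (hHlow j))
  have hwdiv : ∀ j, C (a ^ K) * w j = (q j - C (a ^ (K + 1)) * H j * P') * w i0 + r' j := by
    intro j
    rw [hwj j, hw0]
    simp only [hr']
    have h1 := hqr j
    rw [C_mul, pow_succ, C_mul]
    linear_combination h1 + C (a ^ K) * C a * H j * hres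
  have hr'coeff : ∀ z : {j : ι // j ≠ i0 ∧ j ≠ i1} × Fin m, (r' z.1).coeff z.2 =
      (r z.1).coeff z.2 + h z * (a ^ (K + 1) * δ) := by
    rintro ⟨⟨j, hj⟩, i⟩
    have e : H j = RL_H fun i => h (⟨j, hj⟩, i) := dif_pos hj
    simp only [hr']
    rw [coeff_add, coeff_C_mul, e, RL_H_coeff]
    ring
  -- the coefficients generate a power of `a`
  have hprime : ∀ p : Ideal R, p.IsPrime → (∀ z : {j : ι // j ≠ i0 ∧ j ≠ i1} × Fin m,
      (r' z.1).coeff z.2 ∈ p) → a ∈ p := by
    intro p hp hcoef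
    by_contra hap
    have hht := RL_height hdim ha hp hap
    have hs : a ^ (K + 1) * δ ∈ p := by
      by_contra hsp
      have h1 := hh p hp (fun z => by
        have := hcoef z
        rwa [hr'coeff z] at this) hsp
      have h2 : D ≤ Fintype.card ({j : ι // j ≠ i0 ∧ j ≠ i1} × Fin m) := by
        rw [Fintype.card_prod, RL_card hcard h01, Fintype.card_fin]
        obtain ⟨D', rfl⟩ : ∃ D', D = D' + 2 := ⟨D - 2, by omega⟩
        have : D' + 2 - 1 = D' + 1 := by omega
        rw [this]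
        nlinarith
      have h3 : (D : ℕ∞) ≤ p.height := le_trans (by exact_mod_cast h2) h1
      exact absurd h3 (not_le.2 hht)
    have hδp : δ ∈ p := by
      rcases hp.mem_or_mem hs with h1 | h1
      · exact absurd (hp.mem_of_pow_mem _ h1) hap
      · exact h1
    refine RL_key hp hap (w := w) (i0 := i0) (i1 := i1) (m := m) (k := k)
      (n := (v i1).natDegree) (K := K) (by rw [hw0, hdeg]) (by rw [hw0, hlc]) (by rw [hw1])
      (by rw [hw0, hw1]; exact hδp) ?_ hwUm
    intro j hj0 hj1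
    refine ⟨_, _, hwdiv j, fun i => ?_⟩
    by_cases hi : i < m
    · exact hcoef (⟨j, hj0, hj1⟩, ⟨i, hi⟩)
    · rw [hr'low j i (by omega)]
      exact p.zero_mem
  set cI : Ideal R := Ideal.span (Set.range fun z : {j : ι // j ≠ i0 ∧ j ≠ i1} × Fin m =>
    (r' z.1).coeff z.2) with hcI
  have hrad : a ∈ cI.radical := by
    rw [Ideal.radical_eq_sInf, Submodule.mem_sInf]
    rintro p ⟨hle, hp⟩
    exact hprime p hp fun z => hle (Ideal.subset_span ⟨z, rfl⟩)
  obtain ⟨L, hL⟩ := hrad
  -- the ideal of the entries and the climb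
  set I := RL_others w i1 with hI
  have hgI : w i0 ∈ I := RL_entry_mem h01
  have hr'I : ∀ z : {j : ι // j ≠ i0 ∧ j ≠ i1} × Fin m, r' z.1 ∈ I := by
    rintro ⟨⟨j, hj0, hj1⟩, i⟩
    have h1 : r' j = C (a ^ K) * w j - (q j - C (a ^ (K + 1)) * H j * P') * w i0 := by
      rw [hwdiv j]; ring
    show r' j ∈ I
    rw [h1]
    exact I.sub_mem (I.mul_mem_left _ (RL_entry_mem hj1)) (I.mul_mem_left _ hgI)
  have hclimb : ∀ y ∈ cI, a ^ (k * (m - 1)) * y ∈ RL_top I m := by
    intro y hy
    have hle : cI ≤ Submodule.comap (LinearMap.mulLeft R (a ^ (k * (m - 1)))) (RL_top I m) := by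
      rw [hcI, Ideal.span, Submodule.span_le]
      rintro _ ⟨z, rfl⟩
      show a ^ (k * (m - 1)) * (r' z.1).coeff z.2 ∈ RL_top I m
      have hz := z.2.2
      have h1 := RL_climb (by omega : 1 ≤ m) (by rw [hw0, hdeg]) (by rw [hw0, hlc]) hgI
        (m - 1 - (z.2 : ℕ)) (by omega) (r' z.1) (hr'I z) (hr'low _)
      have e1 : m - 1 - (m - 1 - (z.2 : ℕ)) = z.2 := by omega
      rw [e1] at h1
      have h2 := (RL_top I m).mul_mem_left (a ^ (k * z.2)) h1
      have e2 : a ^ (k * (z.2 : ℕ)) * (a ^ (k * (m - 1 - (z.2 : ℕ))) * (r' z.1).coeff z.2) =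
          a ^ (k * (m - 1)) * (r' z.1).coeff z.2 := by
        rw [← mul_assoc, ← pow_add, ← Nat.mul_add]
        congr 3
        omega
      rwa [e2] at h2
    exact hle hy
  obtain ⟨g, hgI', hglow, hgtop⟩ := hclimb _ hL
  rw [← pow_add] at hgtop
  set L' := k * (m - 1) + L with hL'
  obtain ⟨c', hc'1, hc'⟩ := hgI'
  -- multiply the entry `i1` by a power of `a`
  have hwguard : C a ∣ w iD - 1 := by
    obtain ⟨e, he⟩ := hguard
    refine ⟨e + v i1 * H iD * P, ?_⟩
    rw [hwj]
    linear_combination he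
  have h3 : 3 ≤ Fintype.card ι := by omega
  set N := K + L' with hN
  have hE1 := RL_O2 hO2 h3 hwUm h1D hwguard N
  set w2 : ι → R[X] := Function.update w i1 (C (a ^ (2 * N)) * w i1) with hw2
  set b : R := (r i1).coeff (m - 1) with hb
  set cc : ι → R[X] := (-(C (a ^ (2 * N - K)) * q i1)) • (Pi.single i0 1 : ι → R[X]) +
    (C (a ^ (2 * N - K - L')) * (1 - C b)) • c' with hcc
  have hcc1 : cc i1 = 0 := by
    simp [hcc, hc'1, h01.symm]
  have hE2 := EEq_add_one i1 w2 cc hcc1
  have hdot : w2 ⬝ᵥ cc = -(C (a ^ (2 * N - K)) * q i1) * w i0 +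
      C (a ^ (2 * N - K - L')) * (1 - C b) * g := by
    rw [hw2, RL_update_dot w cc i1 _ hcc1, hcc, dotProduct_add, dotProduct_smul, dotProduct_smul,
      hc', dotProduct_single, mul_one, smul_eq_mul, smul_eq_mul]
  have hsplit : C (a ^ (2 * N)) = C (a ^ (2 * N - K)) * C (a ^ K) := by
    rw [← C_mul, ← pow_add]
    congr 2
    omega
  have hF : w2 i1 + w2 ⬝ᵥ cc =
      C (a ^ (2 * N - K)) * r i1 + C (a ^ (2 * N - K - L') * (1 - b)) * g := by
    rw [hdot, hw2, Function.update_self, hw1, hw0, hsplit, C_mul, C_sub, C_1]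
    linear_combination C (a ^ (2 * N - K)) * hqr i1
  rw [hF] at hE2
  set G : R[X] := C (a ^ (2 * N - K)) * r i1 + C (a ^ (2 * N - K - L') * (1 - b)) * g with hG
  have hGlow : RL_low m G := RL_low_add (RL_low_C_mul _ (hr i1)) (RL_low_C_mul _ hglow)
  have hGtop : G.coeff (m - 1) = a ^ (2 * N - K) := by
    rw [hG, coeff_add, coeff_C_mul, coeff_C_mul, hgtop, ← hb]
    have e : a ^ (2 * N - K) = a ^ (2 * N - K - L') * a ^ L' := by
      rw [← pow_add]
      congr 1
      omega
    rw [e]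
    ring
  have hGne : G.coeff (m - 1) ≠ 0 := by
    rw [hGtop]
    exact fun h => hnil ⟨_, h⟩
  have hGdeg : G.natDegree = m - 1 := by
    refine natDegree_eq_of_le_of_coeff_ne_zero ?_ hGne
    rw [natDegree_le_iff_coeff_eq_zero]
    intro i hi
    exact hGlow i (by omega)
  have hE3 := EEq_swap h01 (Function.update w2 i1 G)
  refine ⟨_, ((hvw.trans hE1).trans hE2).trans hE3, ?_, ?_, ?_⟩
  · rw [Function.update_of_ne h01, Function.update_self, Function.update_self]
    exact hGdeg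
  · rw [Function.update_of_ne h01, Function.update_self, Function.update_self]
    exact ⟨2 * N - K, by rw [leadingCoeff, hGdeg, hGtop]⟩
  · rw [Function.update_of_ne h1D.symm, Function.update_of_ne h0D.symm,
      Function.update_of_ne h1D.symm, hw2, Function.update_of_ne h1D.symm]
    exact hwguard

end GB
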